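import Pool.Agent.H.MP_3eaa21_lc.A

set_option autoImplicit false

/-! Sets that are neither high nor diagonally noncomputable: upper bounds of increasing sequences. -/

namespace Pool.Agent.H.MP_5f0f34_lc

open Pool.Agent.Lib.helper21.PR Pool.Agent.H.MP_fa5791_lc Pool.Agent.H.MP_fa2eca_lc Filter Set Encodable Denumerable
open Nat.Partrec Nat.Partrec.Code Pool.Agent.Lib.helper21 List

attribute [local irreducible] Primrec Computable

def Cv (e : ℕ) (σ : List Bool) (a b : ℕ) : Prop :=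
  ∃ n < σ.length + 1, ((ofNat Code e).eval (encode (encode (a, b), σ.take n))).Dom

theorem cv_ri (Y : ℕ → Bool) : RI Y fun z : ℕ × List Bool × ℕ × ℕ => Cv z.1 z.2.1 z.2.2.1 z.2.2.2 := by
  have h : RI Y _ := (i_re (r_pw re_dom)).un
  exact (i_exists (R := fun (z : ℕ × List Bool × ℕ × ℕ) n => n < z.2.1.length + 1 ∧ ((ofNat Code z.1).eval
    (encode (encode (z.2.2.1, z.2.2.2), z.2.1.take n))).Dom) (i_and (by fun_prop) (i_pw (i_comp
      (f := fun z : (ℕ × List Bool × ℕ × ℕ) × ℕ => (z.1.1, encode (encode (z.1.2.2.1, z.1.2.2.2), z.1.2.1.take z.2)))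
        h (by fun_prop))))).un

theorem Cv.mono {e a b : ℕ} {σ τ : List Bool} (h : Cv e σ a b) (k : σ <+: τ) : Cv e τ a b := by
  obtain ⟨ρ, rfl⟩ := k
  exact h.imp fun n h => ⟨by simp; omega, by rw [take_append_of_le_length (by omega)]; exact h.2⟩

/-- every computed function is escaped by a computable function and is not diagonally noncomputable -/
def Sm (Y : ℕ → Bool) : Prop := ∀ f : ℕ → ℕ, CI Y f →
  (∃ n, f n ∈ (ofNat Code n).eval n) ∧ ∃ d, CI O d ∧ ∃ᶠ n in atTop, f n < d n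

theorem sm_O : Sm O := fun f h => by
  obtain ⟨c, hc⟩ := exists_code.1 (Partrec.nat_iff.1 (ci_comput h).partrec)
  exact ⟨⟨encode c, by simp [hc]⟩, fun n => f n + 1, by fun_prop, .of_forall (by simp)⟩

theorem sm_of {X : ℕ → Bool} (h : ∀ e, (∃ x, ∀ n b, ¬ Cv e (pre X n) x b) ∨ (∃ x, ∃ b ∈ (ofNat Code x).eval x,
    ∃ n, Cv e (pre X n) x b) ∧ ∃ d, CI O d ∧ ∃ᶠ x in atTop, ∃ n, ∃ b < d x, Cv e (pre X n) x b) : Sm X := fun f k => by
  obtain ⟨e, l⟩ := jump_one k.ri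
  simp only [J_iff, Nat.unpair_pair, Prod.forall] at l
  have a : ∀ n x b, Cv e (pre X n) x b → f x = b := fun n x b ⟨m, c, d⟩ => (l _ _).2 ⟨m, by
    rwa [pre_take _ (by simpa [pre, Nat.lt_succ_iff] using c)] at d⟩
  rcases h e with ⟨x, h⟩ | ⟨⟨x, b, c, n, h⟩, d, m, o⟩
  · obtain ⟨n, c⟩ := (l x _).1 rfl
    exact (h n _ ⟨n, by simp [pre], by rwa [pre_take _ le_rfl]⟩).elim
  · exact ⟨⟨x, a _ _ _ h ▸ c⟩, d, m, o.mono fun x ⟨n, b, c, h⟩ => a _ _ _ h ▸ c⟩

theorem generic {C ι : Type} [Countable ι] [Nonempty ι] {le : C → C → Prop} (r : ∀ c, le c c)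
    (t : ∀ a b c, le a b → le b c → le a c) {D : ι → C → Prop} (h : ∀ i c, ∃ d, le c d ∧ D i d) (c : C) :
    ∃ s : ℕ → C, (∀ m n, m ≤ n → le (s m) (s n)) ∧ ∀ i m, ∃ n ≥ m, D i (s n) := by
  obtain ⟨f, hf⟩ := exists_surjective_nat ι
  choose g g1 g2 using h
  refine ⟨fun n => n.rec c fun n d => g (f n.unpair.1) d, fun m n k => ?_, fun i m => ?_⟩
  · induction k with
    | refl => exact r _
    | step _ ih => exact t _ _ _ ih (g1 _ _)
  · obtain ⟨j, rfl⟩ := hf i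
    exact ⟨Nat.pair j m + 1, (Nat.right_le_pair j m).trans (Nat.le_succ _), by
      simpa using g2 (f (Nat.pair j m).unpair.1) _⟩

/-- embeddings of the binary tree -/
def Tm (R : List Bool → List Bool) : Prop := ∀ σ τ, R σ <+: R τ ↔ σ <+: τ

theorem Tm.len {R : List Bool → List Bool} (h : Tm R) (σ : List Bool) : σ.length ≤ (R σ).length := by
  induction σ using reverseRecOn with
  | nil => simp
  | append_singleton σ b ih =>
    have := (h σ (σ ++ [b])).2 (prefix_append _ _)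
    have := this.length_le.lt_of_ne fun e => by
      simpa using ((h (σ ++ [b]) σ).1 (this.eq_of_length e ▸ prefix_rfl)).length_le
    simp only [length_append, length_singleton]
    omega

theorem grow {Y : ℕ → Bool} (σ : List Bool) {g : List Bool → ℕ → List Bool}
    (hg : CI Y fun z : List Bool × ℕ => g z.1 z.2) (k : ∀ ρ x, ρ <+: g ρ x) : ∃ R, CI Y R ∧ Tm R ∧ R [] = σ ∧
      ∀ τ b, R (τ ++ [b]) = g (R τ ++ [b]) τ.length := by
  obtain ⟨Q, q1, q2, q3⟩ : ∃ Q : List Bool → ℕ → List Bool, CI Y (fun z : List Bool × ℕ => Q z.1 z.2) ∧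
      (∀ τ, Q τ 0 = σ) ∧ ∀ τ n, Q τ (n + 1) = g (Q τ n ++ [τ.getD n false]) n :=
    ⟨fun τ n => Nat.rec σ (fun n a => g (a ++ [τ.getD n false]) n) n, by fun_prop, fun _ => rfl, fun _ _ => rfl⟩
  have e : ∀ τ ρ, ∀ n ≤ τ.length, Q (τ ++ ρ) n = Q τ n := fun τ ρ n h => by
    induction n with
    | zero => rw [q2, q2]
    | succ n ih => rw [q3, q3, ih (by omega), getD_append _ _ _ _ h]
  obtain ⟨R, r⟩ : ∃ R : List Bool → List Bool, ∀ τ, R τ = Q τ τ.length := ⟨_, fun _ => rfl⟩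
  have s : ∀ τ b, R (τ ++ [b]) = g (R τ ++ [b]) τ.length := fun τ b => by
    simp [r, q3, e]
  have m : ∀ σ τ, R σ <+: R (σ ++ τ) := fun σ τ => by
    induction τ using reverseRecOn with
    | nil => simp
    | append_singleton τ b ih => exact ih.trans (by rw [← append_assoc, s]; exact (prefix_append _ _).trans (k _ _))
  refine ⟨R, .of_eq (by fun_prop) fun _ => (r _).symm, fun σ τ => ⟨fun h => ?_, fun ⟨ρ, h⟩ => h ▸ m _ _⟩,
    (r _).trans (q2 _), s⟩
  induction σ using reverseRecOn with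
  | nil => simp
  | append_singleton σ b ih =>
    have a : R σ ++ [b] <+: R τ := (s σ b ▸ k _ _).trans h
    obtain ⟨ρ, rfl⟩ := ih ((prefix_append _ _).trans a)
    cases ρ with
    | nil => simpa using a.length_le
    | cons c ρ =>
      have d : R σ ++ [c] <+: R (σ ++ c :: ρ) := (s σ c ▸ k _ _).trans (by simpa using m (σ ++ [c]) ρ)
      simpa using (prefix_of_prefix_length_le a d (by simp)).eq_of_length (by simp)

/-- branches -/
def Br (S : List Bool → List Bool) (X : ℕ → Bool) : Prop := ∀ n, ∃ τ : List Bool, τ.length = n ∧ ∃ m, S τ = pre X m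

theorem pre_of {X : ℕ → Bool} {σ : List Bool} {m : ℕ} (h : σ <+: pre X m) : σ = pre X σ.length :=
  (prefix_iff_eq_take.1 h).trans (pre_take _ (by simpa [pre] using h.length_le))

theorem Br.comp {S R : List Bool → List Bool} {X : ℕ → Bool} (hS : Tm S) (hR : Tm R) (h : Br (fun τ => S (R τ)) X) : Br S X :=
  fun n => let ⟨τ, a, _, b⟩ := h n
    ⟨(R τ).take n, by simpa [← a] using hR.len τ, _, pre_of ((show S (R τ) = _ from b) ▸ (hS _ _).2 (take_prefix _ _))⟩

theorem Br.lim {S : ℕ → List Bool → List Bool} (h : ∀ k, Tm (S k)) (m : ∀ k l, k ≤ l → ∀ X, Br (S l) X → Br (S k) X) :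
    ∃ X, ∀ k, Br (S k) X := by
  have ne : ∀ k, ∃ X, Br (S k) X := fun k => ⟨fun i => (S k (replicate (i + 1) false)).getD i false, fun n =>
    ⟨replicate n false, by simp, (S k (replicate n false)).length, List.ext_getElem (by simp [pre]) fun i a b => by
      have c : i < (S k (replicate (i + 1) false)).length := by simpa using (h k).len (replicate (i + 1) false)
      simp only [pre, getElem_map, getElem_range, getD_eq_getElem _ _ c]
      rcases le_total n (i + 1) with d | d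
      exacts [((h k _ _).2 (by simpa [prefix_replicate_iff])).getElem a,
        (((h k _ _).2 (by simpa [prefix_replicate_iff])).getElem c).symm]⟩⟩
  refine IsCompact.nonempty_iInter_of_sequence_nonempty_isCompact_isClosed (fun k => {X | Br (S k) X})
    (fun k => m k _ k.le_succ) ne (IsClosed.isCompact ?_) ?_ |>.imp fun X => by simp
  all_goals
    have : ∀ k, IsClosed {X | Br (S k) X} := fun k => by
      simp only [Br, setOf_forall]
      refine isClosed_iInter fun n => ?_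
      have : {X | ∃ τ : List Bool, τ.length = n ∧ ∃ m, S k τ = pre X m} = ⋃ τ ∈ {τ : List Bool | τ.length = n},
          ⋂ i < (S k τ).length, {X | X i = (S k τ).getD i false} := by
        ext X
        simp only [mem_setOf, mem_iUnion, mem_iInter, exists_prop]
        refine exists_congr fun τ => and_congr_right fun _ => ⟨fun ⟨m, e⟩ i l => by simp_all [pre], fun e =>
          ⟨(S k τ).length, List.ext_getElem (by simp [pre]) fun i a b => by simp [pre, e i a, a]⟩⟩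
      exact this ▸ (List.finite_length_eq Bool n).isClosed_biUnion fun τ _ => isClosed_iInter fun i =>
        isClosed_iInter fun _ => isClosed_eq (continuous_apply i) continuous_const
    apply this

theorem upper {Y : ℕ → ℕ → Bool} (h0 : Y 0 = O) (h : ∀ k, Sm (Y k)) (hY : ∀ k, CI (Y (k + 1)) (Y k)) :
    ∃ X, Sm X ∧ ∀ k, CI X (Y k) := by
  have mo : ∀ k l, k ≤ l → ∀ X, CI X (Y l) → CI X (Y k) := fun k l a X => by
    induction a with
    | refl => exact id
    | step _ ih => exact fun b => ih ((hY _).trans b)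
  have up : ∀ k S, CI (Y k) S ∧ Tm S ∧ (∀ X, Br S X → CI X (Y k)) → ∃ T, (CI (Y (k + 1)) T ∧ Tm T ∧
      ∀ X, Br T X → CI X (Y (k + 1))) ∧ ∀ X, Br T X → Br S X := fun k S ⟨a, b, c⟩ => by
    have y := ci_self (Y (k + 1))
    have a' := a.trans (hY k)
    generalize Y (k + 1) = Z at *
    obtain ⟨R, r1, r2, r3, r4⟩ := grow (Y := Z) [] (g := fun ρ x => ρ ++ [Z x]) (by fun_prop) (by simp)
    refine ⟨fun τ => S (R τ), ⟨ci_comp a' r1, fun _ _ => (b _ _).trans (r2 _ _), fun X d => ?_⟩, fun X => Br.comp b r2⟩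
    have l : ∀ τ, (R τ).length = 2 * τ.length := fun τ => by
      induction τ using reverseRecOn with
      | nil => simp [r3]
      | append_singleton τ b ih => simp [r4, ih]; omega
    have x := ci_self X
    have a' := a.trans (c X (d.comp b r2))
    obtain ⟨g, g1, g2⟩ := RI.choice (Y := X) (R := fun i (ρ : List Bool) => ρ.length = 2 * i + 2 ∧ ∃ m, S ρ = pre X m)
      (by fun_prop) fun i => d.comp b r2 _
    refine CI.of_eq (f := fun i => (g i).getD (2 * i + 1) false) (by fun_prop) fun i => ?_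
    obtain ⟨τ, e, m, f⟩ := d (i + 1)
    obtain ⟨o, n, p⟩ := g2 i
    beta_reduce at f
    have : g i = R τ := by
      rcases le_total m n with q | q
      · exact (((b _ _).1 (p ▸ (f ▸ ML.pre_pre X q : S (R τ) <+: _))).eq_of_length (by rw [l]; omega)).symm
      · exact ((b _ _).1 (p ▸ (f ▸ ML.pre_pre X q : _ <+: S (R τ)))).eq_of_length (by rw [l]; omega)
    obtain rfl | ⟨τ, u, rfl⟩ := τ.eq_nil_or_concat'
    · simp at e
    obtain rfl : τ.length = i := by simpa using e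
    simp [this, r4, l]
  refine (generic (C := {c : ℕ × (List Bool → List Bool) // CI (Y c.1) c.2 ∧ Tm c.2 ∧
      ∀ X, Br c.2 X → CI X (Y c.1)}) (le := fun c d => c.1.1 ≤ d.1.1 ∧ ∀ X, Br d.1.2 X → Br c.1.2 X)
    (D := fun e c => e ≤ c.1.1 ∧ ((∃ x, ∀ X, Br c.1.2 X → ∀ n b, ¬ Cv e (pre X n) x b) ∨
      (∃ x, ∃ b ∈ (ofNat Code x).eval x, ∀ X, Br c.1.2 X → ∃ n, Cv e (pre X n) x b) ∧
        ∃ d, CI O d ∧ ∃ᶠ x in atTop, ∀ X, Br c.1.2 X → ∃ n, ∃ b < d x, Cv e (pre X n) x b))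
    (fun _ => ⟨le_rfl, fun _ => id⟩) (fun _ _ _ a b => ⟨a.1.trans b.1, fun X c => a.2 X (b.2 X c)⟩) (fun e c => ?_)
    ⟨(0, id), ci_id, fun _ _ => .rfl, fun _ _ => h0 ▸ ci_O⟩).elim fun s ⟨s1, s2⟩ => ?_
  swap
  · obtain ⟨X, x⟩ := Br.lim (fun k => (s k).2.2.1) fun k l a => (s1 k l a).2
    refine ⟨X, sm_of fun e => ?_, fun k => let ⟨n, _, a⟩ := s2 k 0; mo _ _ a.1 X ((s n).2.2.2 X (x n))⟩
    obtain ⟨n, -, -, a⟩ := s2 e 0
    exact a.imp (·.imp fun _ b => b X (x n)) fun ⟨⟨y, b, c, d⟩, f, g, l⟩ =>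
      ⟨⟨y, b, c, d X (x n)⟩, f, g, l.mono fun _ o => o X (x n)⟩
  obtain ⟨⟨k, S0⟩, c⟩ := c
  obtain ⟨S, ⟨a, b, c⟩, d⟩ : ∃ T, (CI (Y (k + e)) T ∧ Tm T ∧ ∀ X, Br T X → CI X (Y (k + e))) ∧
      ∀ X, Br T X → Br S0 X := by
    induction e with
    | zero => exact ⟨S0, c, fun _ => id⟩
    | succ e ih => exact ih.elim fun T f => (up _ T f.1).imp fun U g => ⟨g.1, fun X l => f.2 X (g.2 X l)⟩
  suffices ∃ R, CI (Y (k + e)) R ∧ Tm R ∧ ((∃ x, ∀ X, Br (fun τ => S (R τ)) X → ∀ n b, ¬ Cv e (pre X n) x b) ∨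
      (∃ x, ∃ b ∈ (ofNat Code x).eval x, ∀ X, Br (fun τ => S (R τ)) X → ∃ n, Cv e (pre X n) x b) ∧
        ∃ d, CI O d ∧ ∃ᶠ x in atTop, ∀ X, Br (fun τ => S (R τ)) X → ∃ n, ∃ b < d x, Cv e (pre X n) x b) by
    obtain ⟨R, r1, r2, r3⟩ := this
    exact ⟨⟨(k + e, fun τ => S (R τ)), (ci_comp a r1 :), fun _ _ => (b _ _).trans (r2 _ _), fun X f => c X (f.comp b r2)⟩,
      ⟨by simp, fun X f => d X (f.comp b r2)⟩, by simp, r3⟩
  replace h := h (k + e)
  generalize Y (k + e) = Z at *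
  by_cases f : ∃ ρ x, ∀ τ b, ρ <+: τ → ¬ Cv e (S τ) x b
  · obtain ⟨ρ, x, f⟩ := f
    refine ⟨(ρ ++ ·), by fun_prop, fun _ _ => by simp, .inl ⟨x, fun X g n y l => ?_⟩⟩
    obtain ⟨τ, o, m, p⟩ := g n
    beta_reduce at p
    have := b.len (ρ ++ τ)
    exact f _ y (prefix_append ρ τ) (l.mono (p ▸ ML.pre_pre X (by simp_all [pre_len]; omega) : _ <+: S (ρ ++ τ)))
  push Not at f
  have cv := cv_ri Z
  obtain ⟨g, g1, g2⟩ := RI.choice (Y := Z) (R := fun (z : List Bool × ℕ) (w : List Bool × ℕ) => z.1 <+: w.1 ∧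
    Cv e (S w.1) z.2 w.2) (i_and (by fun_prop) (i_pw (i_comp (f := fun z : (List Bool × ℕ) × List Bool × ℕ =>
      (e, S z.2.1, z.1.2, z.2.2)) cv (by fun_prop)))) fun z => let ⟨τ, y, l⟩ := f z.1 z.2; ⟨(τ, y), l⟩
  obtain ⟨⟨x, l⟩, -⟩ := h (fun x => (g ([], x)).2) (by fun_prop)
  obtain ⟨R, r1, r2, r3, r4⟩ := grow (Y := Z) (g ([], x)).1 (g := fun ρ x => (g (ρ, x)).1) (by fun_prop)
    fun ρ x => (g2 (ρ, x)).1
  have p2 := Fn.pow2
  have tb : Primrec fun z : ℕ × ℕ => Nat.testBit z.1 z.2 := Fn.tb_prim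
  obtain ⟨-, d, d1, d2⟩ := h (fun x => ∑ c ∈ Finset.range (2 ^ (x + 1)),
    (g (R (pre (Nat.testBit c ·) x) ++ [c.testBit x], x)).2) (by fun_prop)
  refine ⟨R, r1, r2, .inr ⟨⟨x, _, l, fun X o => ?_⟩, d, d1, d2.mono fun y o X p => ?_⟩⟩
  · obtain ⟨τ, q, m, p⟩ := o 0
    beta_reduce at p
    rw [length_eq_zero_iff.1 q, r3] at p
    exact ⟨m, p ▸ (g2 _).2⟩
  obtain ⟨τ, q, m, p⟩ := p (y + 1)
  have u : τ = pre (Nat.testBit (Fn.cd (τ.getD · false) (y + 1)) ·) (y + 1) :=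
    (List.ext_getElem (by simp [pre, q]) fun i a b => by simp [pre, a]).trans
      (ML.pre_congr fun i a => (Fn.tb_cd _ _ i a).symm)
  beta_reduce at p
  rw [u, pre_succ, r4, pre_len] at p
  exact ⟨m, _, (Finset.single_le_sum (fun _ _ => Nat.zero_le _) (Finset.mem_range.2 (Fn.cd_lt _ _))).trans_lt o,
    p ▸ (g2 _).2⟩

end Pool.Agent.H.MP_5f0f34_lc
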