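import Mathlib

set_option autoImplicit false

/-! First-order terms and formulas coded by natural numbers. -/

namespace Pool.Agent.H.MP_5f0f34_lc

open Set Function Denumerable Encodable Filter

/-- a language: which pairs (symbol, arity) are function symbols and relation symbols -/
structure Lang where
  fn : ℕ → ℕ → Prop
  rel : ℕ → ℕ → Prop

/-- a structure: a symbol applied to a list of arguments -/
structure Str (M : Type) where
  fn : ℕ → List M → M
  rel : ℕ → List M → Prop

theorem mem_lt : ∀ {k x : ℕ}, x ∈ ofNat (List ℕ) k → x < k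
  | 0, _, h => by simp at h
  | k + 1, x, h => by
    rw [list_ofNat_succ, List.mem_cons] at h
    have := k.unpair_left_le
    have := k.unpair_right_le
    exact h.elim (by simp; omega) fun h => by have := mem_lt h; omega
  decreasing_by omega

variable {M : Type}

/-- value of the term `t`: `2 i` is the variable `i`, and `2 ⟨f, l⟩ + 1` is `f` applied to the list of terms `l` -/
def tm (A : Str M) (v : ℕ → M) (t : ℕ) : M :=
  if t % 2 = 0 then v (t / 2) else A.fn (t / 2).unpair.1 ((ofNat (List ℕ) (t / 2).unpair.2).attach.map fun s => tm A v s.1)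
  decreasing_by
    have := mem_lt s.2
    have := (t / 2).unpair_right_le
    omega

/-- truth of the formula `φ`: equation, relation, negation, conjunction, existential quantifier -/
def Sat (A : Str M) (φ : ℕ) (v : ℕ → M) : Prop :=
  if φ % 5 = 0 then tm A v (φ / 5).unpair.1 = tm A v (φ / 5).unpair.2 else
  if φ % 5 = 1 then A.rel (φ / 5).unpair.1 ((ofNat (List ℕ) (φ / 5).unpair.2).map (tm A v)) else
  if φ % 5 = 2 then ¬ Sat A (φ / 5) v else
  if φ % 5 = 3 then Sat A (φ / 5).unpair.1 v ∧ Sat A (φ / 5).unpair.2 v else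
    ∃ a, Sat A (φ / 5).unpair.2 (update v (φ / 5).unpair.1 a)
  decreasing_by
    all_goals
      have := (φ / 5).unpair_left_le
      have := (φ / 5).unpair_right_le
      omega

/-- terms of the language with variables in `V` -/
def OkT (L : Lang) (V : Set ℕ) (t : ℕ) : Prop :=
  if t % 2 = 0 then t / 2 ∈ V else L.fn (t / 2).unpair.1 (ofNat (List ℕ) (t / 2).unpair.2).length ∧
    ∀ s ∈ ofNat (List ℕ) (t / 2).unpair.2, OkT L V s
  decreasing_by
    have := mem_lt ‹_›
    have := (t / 2).unpair_right_le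
    omega

/-- formulas of the language with free variables in `V` -/
def Ok (L : Lang) (φ : ℕ) (V : Set ℕ) : Prop :=
  if φ % 5 = 0 then OkT L V (φ / 5).unpair.1 ∧ OkT L V (φ / 5).unpair.2 else
  if φ % 5 = 1 then L.rel (φ / 5).unpair.1 (ofNat (List ℕ) (φ / 5).unpair.2).length ∧
    ∀ s ∈ ofNat (List ℕ) (φ / 5).unpair.2, OkT L V s else
  if φ % 5 = 2 then Ok L (φ / 5) V else
  if φ % 5 = 3 then Ok L (φ / 5).unpair.1 V ∧ Ok L (φ / 5).unpair.2 V else
    Ok L (φ / 5).unpair.2 (insert (φ / 5).unpair.1 V)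
  decreasing_by
    all_goals
      have := (φ / 5).unpair_left_le
      have := (φ / 5).unpair_right_le
      omega

def var (i : ℕ) : ℕ := 2 * i
def app (f : ℕ) (l : List ℕ) : ℕ := 2 * Nat.pair f (encode l) + 1
def eq (s t : ℕ) : ℕ := 5 * Nat.pair s t
def rel (r : ℕ) (l : List ℕ) : ℕ := 5 * Nat.pair r (encode l) + 1
def neg (φ : ℕ) : ℕ := 5 * φ + 2
def conj (φ ψ : ℕ) : ℕ := 5 * Nat.pair φ ψ + 3
def ex (i φ : ℕ) : ℕ := 5 * Nat.pair i φ + 4

variable {A : Str M} {L : Lang} {v w : ℕ → M} {V W : Set ℕ} {i f s t φ ψ : ℕ} {l : List ℕ}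

@[simp] theorem tm_var : tm A v (var i) = v i := by rw [tm]; simp [var]
@[simp] theorem tm_app : tm A v (app f l) = A.fn f (l.map (tm A v)) := by rw [tm]; simp [app, Nat.mul_add_div]
@[simp] theorem sat_eq : Sat A (eq s t) v ↔ tm A v s = tm A v t := by rw [Sat]; simp [eq]
@[simp] theorem sat_rel : Sat A (rel f l) v ↔ A.rel f (l.map (tm A v)) := by rw [Sat]; simp [rel, Nat.mul_add_div]
@[simp] theorem sat_neg : Sat A (neg φ) v ↔ ¬ Sat A φ v := by rw [Sat]; simp [neg, Nat.mul_add_div]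
@[simp] theorem sat_conj : Sat A (conj φ ψ) v ↔ Sat A φ v ∧ Sat A ψ v := by rw [Sat]; simp [conj, Nat.mul_add_div]
@[simp] theorem sat_ex : Sat A (ex i φ) v ↔ ∃ a, Sat A φ (update v i a) := by rw [Sat]; simp [ex, Nat.mul_add_div]
@[simp] theorem ok_var : OkT L V (var i) ↔ i ∈ V := by rw [OkT]; simp [var]
@[simp] theorem ok_app : OkT L V (app f l) ↔ L.fn f l.length ∧ ∀ s ∈ l, OkT L V s := by
  rw [OkT]; simp [app, Nat.mul_add_div]
@[simp] theorem ok_eq : Ok L (eq s t) V ↔ OkT L V s ∧ OkT L V t := by rw [Ok]; simp [eq]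
@[simp] theorem ok_rel : Ok L (rel f l) V ↔ L.rel f l.length ∧ ∀ s ∈ l, OkT L V s := by
  rw [Ok]; simp [rel, Nat.mul_add_div]
@[simp] theorem ok_neg : Ok L (neg φ) V ↔ Ok L φ V := by rw [Ok]; simp [neg, Nat.mul_add_div]
@[simp] theorem ok_conj : Ok L (conj φ ψ) V ↔ Ok L φ V ∧ Ok L ψ V := by rw [Ok]; simp [conj, Nat.mul_add_div]
@[simp] theorem ok_ex : Ok L (ex i φ) V ↔ Ok L φ (insert i V) := by rw [Ok]; simp [ex, Nat.mul_add_div]

theorem tind {P : ℕ → Prop} (h1 : ∀ i, P (var i)) (h2 : ∀ f l, (∀ s ∈ l, P s) → P (app f l)) (t : ℕ) : P t := by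
  induction t using Nat.strong_induction_on with
  | _ t ih =>
    by_cases h : t % 2 = 0
    · exact (by simp [var]; omega : var (t / 2) = t) ▸ h1 _
    · refine (by simp [app]; omega : app (t / 2).unpair.1 (ofNat _ (t / 2).unpair.2) = t) ▸ h2 _ _ fun s k => ih s ?_
      have := mem_lt k
      have := (t / 2).unpair_right_le
      omega

theorem find {P : ℕ → Prop} (h0 : ∀ s t, P (eq s t)) (h1 : ∀ f l, P (rel f l)) (h2 : ∀ φ, P φ → P (neg φ))
    (h3 : ∀ φ ψ, P φ → P ψ → P (conj φ ψ)) (h4 : ∀ i φ, P φ → P (ex i φ)) (t : ℕ) : P t := by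
  induction t using Nat.strong_induction_on with
  | _ t ih =>
    have := (t / 5).unpair_left_le
    have := (t / 5).unpair_right_le
    rcases (by omega : t % 5 = 0 ∨ t % 5 = 1 ∨ t % 5 = 2 ∨ t % 5 = 3 ∨ t % 5 = 4) with h | h | h | h | h
    · exact (by simp [eq]; omega : eq (t / 5).unpair.1 (t / 5).unpair.2 = t) ▸ h0 _ _
    · exact (by simp [rel]; omega : rel (t / 5).unpair.1 (ofNat _ (t / 5).unpair.2) = t) ▸ h1 _ _
    · exact (by simp [neg]; omega : neg (t / 5) = t) ▸ h2 _ (ih _ (by omega))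
    · exact (by simp [conj]; omega : conj (t / 5).unpair.1 (t / 5).unpair.2 = t) ▸ h3 _ _ (ih _ (by omega))
        (ih _ (by omega))
    · exact (by simp [ex]; omega : ex (t / 5).unpair.1 (t / 5).unpair.2 = t) ▸ h4 _ _ (ih _ (by omega))

theorem OkT.congr (h : OkT L V t) (e : ∀ i ∈ V, v i = w i) : tm A v t = tm A w t := by
  induction t using tind with
  | h1 i => simpa using e i (by simpa using h)
  | h2 f l ih => simpa using congrArg _ (List.map_congr_left fun s k => ih s k ((ok_app.1 h).2 s k))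

theorem Ok.congr (h : Ok L φ V) (e : ∀ i ∈ V, v i = w i) : Sat A φ v ↔ Sat A φ w := by
  induction φ using find generalizing V v w with
  | h0 s t => simp [(ok_eq.1 h).1.congr e, (ok_eq.1 h).2.congr e]
  | h1 f l => simp [List.map_congr_left fun s k => ((ok_rel.1 h).2 s k).congr (A := A) e]
  | h2 φ ih => simp [ih (ok_neg.1 h) e]
  | h3 φ ψ i1 i2 => simp [i1 (ok_conj.1 h).1 e, i2 (ok_conj.1 h).2 e]
  | h4 i φ ih => exact sat_ex.trans ((exists_congr fun a => ih (ok_ex.1 h) (by grind)).trans sat_ex.symm)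

theorem OkT.mono (h : OkT L V t) (e : ∀ i ≤ t, i ∈ V → i ∈ W) : OkT L W t := by
  induction t using tind with
  | h1 i => exact ok_var.2 (e i (by simp [var]; omega) (ok_var.1 h))
  | h2 f l ih =>
    refine ok_app.2 ⟨(ok_app.1 h).1, fun s k => ih s k ((ok_app.1 h).2 s k) fun i m => e i ?_⟩
    have := mem_lt (k := encode l) (by simpa using k)
    have := Nat.right_le_pair f (encode l)
    simp only [app]
    omega

theorem Ok.mono (h : Ok L φ V) (e : ∀ i ≤ φ, i ∈ V → i ∈ W) : Ok L φ W := by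
  have a := Nat.left_le_pair
  have b := Nat.right_le_pair
  induction φ using find generalizing V W with
  | h0 s t => exact ok_eq.2 ⟨(ok_eq.1 h).1.mono (by grind [eq]), (ok_eq.1 h).2.mono (by grind [eq])⟩
  | h1 f l => exact ok_rel.2 ⟨(ok_rel.1 h).1, fun s k => ((ok_rel.1 h).2 s k).mono (by
      have := mem_lt (k := encode l) (by simpa using k)
      grind [rel])⟩
  | h2 φ ih => exact ok_neg.2 (ih (ok_neg.1 h) (by grind [neg]))
  | h3 φ ψ i1 i2 => exact ok_conj.2 ⟨i1 (ok_conj.1 h).1 (by grind [conj]), i2 (ok_conj.1 h).2 (by grind [conj])⟩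
  | h4 i φ ih => exact ok_ex.2 (ih (ok_ex.1 h) (by grind [ex]))

theorem truth {U : Ultrafilter ℕ} {v : ℕ → ℕ → M} (hv : ∀ s, Injective (v s))
    (h : ∀ i φ (w : ℕ → ℕ), Ok L φ univ → (∀ᶠ s in U, Sat A (ex i φ) (v s ∘ w)) →
      ∃ j, ∀ᶠ s in U, Sat A φ (v s ∘ update w i j)) :
    ∃ B : Str ℕ, ∀ φ w, Ok L φ univ → (Sat B φ w ↔ ∀ᶠ s in U, Sat A φ (v s ∘ w)) := by
  have a : ∀ f (l : List ℕ), ∃ j, L.fn f l.length → ∀ᶠ s in U, A.fn f (l.map (v s)) = v s j := fun f l => by
    by_cases k : L.fn f l.length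
    swap
    · exact ⟨0, fun e => (k e).elim⟩
    have e : ∀ s (u : ℕ → M), (∀ i < l.length, u i = v s (l.getD i 0)) →
        ((List.range l.length).map var).map (tm A u) = l.map (v s) := fun s u e =>
      List.ext_getElem (by simp) fun i a b => by
        simpa [List.getElem?_eq_getElem (show i < l.length by simpa using b)] using e i (by simpa using b)
    obtain ⟨j, m⟩ := h l.length (eq (app f ((List.range l.length).map var)) (var l.length)) (l.getD · 0)
      (by simp [k]) (.of_forall fun s => sat_ex.2 ⟨A.fn f (l.map (v s)), by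
        rw [sat_eq, tm_app, e s _ (by grind)]; simp⟩)
    exact ⟨j, fun _ => m.mono fun s o => by
      rw [sat_eq, tm_app, e s _ (by grind)] at o
      simpa using o⟩
  choose g hg using a
  refine ⟨⟨g, fun r l => ∀ᶠ s in U, A.rel r (l.map (v s))⟩, fun φ => ?_⟩
  generalize hB : (⟨g, fun r l => ∀ᶠ s in U, A.rel r (l.map (v s))⟩ : Str ℕ) = B
  have b : ∀ w (l : List ℕ), (∀ t ∈ l, ∀ᶠ s in U, tm A (v s ∘ w) t = v s (tm B w t)) →
      ∀ᶠ s in U, l.map (tm A (v s ∘ w)) = (l.map (tm B w)).map (v s) := fun w l k =>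
    ((eventually_all_finite l.finite_toSet).2 k).mono fun s o => by simpa using o
  have c : ∀ w t, OkT L univ t → ∀ᶠ s in U, tm A (v s ∘ w) t = v s (tm B w t) := fun w t k => by
    induction t using tind with
    | h1 i => simp
    | h2 f l ih =>
      filter_upwards [b w l fun s m => ih s m ((ok_app.1 k).2 s m), hg f (l.map (tm B w)) (by simpa using (ok_app.1 k).1)]
        with s m o
      rw [tm_app, tm_app, m, o, ← hB]
  induction φ using find with
  | h0 s t =>
    intro w k
    refine .trans ?_ (eventually_congr ((c w s (ok_eq.1 k).1).mp ((c w t (ok_eq.1 k).2).mono fun n a b => by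
      rw [sat_eq, a, b, (hv n).eq_iff])))
    simp
  | h1 f l =>
    intro w k
    refine .trans ?_ (eventually_congr ((b w l fun s m => c w s ((ok_rel.1 k).2 s m)).mono fun n a => by
      rw [sat_rel, a]))
    rw [sat_rel, ← hB]
  | h2 φ ih => exact fun w k => by simp only [sat_neg, ih w (ok_neg.1 k), Ultrafilter.eventually_not]
  | h3 φ ψ i1 i2 => exact fun w k => by simp [i1 w (ok_conj.1 k).1, i2 w (ok_conj.1 k).2]
  | h4 i φ ih =>
    intro w k
    replace k : Ok L φ univ := by simpa using k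
    exact sat_ex.trans ⟨fun ⟨j, m⟩ => ((ih _ k).1 m).mono fun s o => sat_ex.2 ⟨v s j, by rwa [← comp_update]⟩,
      fun m => (h i φ w k m).imp fun j => (ih _ k).2⟩

end Pool.Agent.H.MP_5f0f34_lc
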