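import Pool.Agent.H.MP_5f0f34_lc.A
import Pool.Agent.Lib.helper21.VL

set_option autoImplicit false

/-! Forcing with computable restrictions of members of a closed set. -/

namespace Pool.Agent.H.MP_5f0f34_lc

open Pool.Agent.Lib.helper21.PR Pool.Agent.H.MP_fa5791_lc Pool.Agent.H.MP_fa2eca_lc Filter Set Encodable Denumerable
open Nat.Partrec Nat.Partrec.Code Pool.Agent.Lib.helper21 List

attribute [local irreducible] Primrec Computable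

variable {P : (ℕ → Bool) → Prop} {V : ℕ → ℕ → Prop}

theorem ulim (pc : ∀ Γ, (∀ k, ∃ Δ, P Δ ∧ ∀ i < k, Δ i = Γ i) → P Γ) {s : ℕ → ℕ → Bool} (h : ∀ n, P (s n)) :
    ∃ Γ, P Γ ∧ ∀ j, ∀ᶠ n in hyperfilter ℕ, s n j = Γ j := by
  have : ∀ j, ∃ b, ∀ᶠ n in hyperfilter ℕ, s n j = b := fun j =>
    (Ultrafilter.eventually_exists_mem_iff (is := univ) (P := fun b n => s n j = b) (toFinite _)).1
      (.of_forall (by simp)) |>.imp fun _ h => h.2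
  choose Γ a using this
  exact ⟨Γ, pc _ fun k => ((eventually_all_finite (finite_lt_nat k)).2 fun j _ => a j).exists.elim
    fun n b => ⟨_, h n, b⟩, a⟩

theorem baire {ι : Type} [Countable ι] [Nonempty ι] {U : ι → (ℕ → Bool) → Prop} (p0 : ∃ Δ, P Δ)
    (pc : ∀ Γ, (∀ k, ∃ Δ, P Δ ∧ ∀ i < k, Δ i = Γ i) → P Γ) (vm : ∀ m n, m ≤ n → ∀ i, V m i → V n i)
    (op : ∀ i Δ, P Δ → U i Δ → ∃ n, ∀ Γ, P Γ → (∀ j, V n j → Γ j = Δ j) → U i Γ) :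
    ∃ Γ, P Γ ∧ ∀ i, U i Γ ∨ ∃ n, ∀ Δ, P Δ → (∀ j, V n j → Δ j = Γ j) → ¬ U i Δ := by
  obtain ⟨s, s1, s2⟩ := generic (C := ℕ × {Δ // P Δ}) (le := fun c d => c.1 ≤ d.1 ∧ ∀ j, V c.1 j → d.2.1 j = c.2.1 j)
    (D := fun i c => (∀ Γ, P Γ → (∀ j, V c.1 j → Γ j = c.2.1 j) → U i Γ) ∨
      ∀ Γ, P Γ → (∀ j, V c.1 j → Γ j = c.2.1 j) → ¬ U i Γ) (by simp) (by grind) (fun i c => by
        by_cases a : ∃ Γ, P Γ ∧ (∀ j, V c.1 j → Γ j = c.2.1 j) ∧ U i Γ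
        · obtain ⟨Γ, a, b, d⟩ := a
          obtain ⟨n, e⟩ := op i Γ a d
          exact ⟨(c.1 + n, ⟨Γ, a⟩), ⟨by simp, b⟩, .inl fun Δ f g => e Δ f fun j k => g j (vm _ _ (by simp) j k)⟩
        · exact ⟨c, by simp, .inr fun Γ b d e => a ⟨Γ, b, d, e⟩⟩) (0, ⟨_, p0.choose_spec⟩)
  obtain ⟨Γ, a, b⟩ := ulim pc fun n => (s n).2.2
  refine ⟨Γ, a, fun i => ?_⟩
  obtain ⟨n, -, c⟩ := s2 i 0
  have d : ∀ j, V (s n).1 j → Γ j = (s n).2.1 j := fun j k =>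
    ((b j).and (Nat.hyperfilter_le_atTop (eventually_ge_atTop n))).exists.elim fun m e => e.1 ▸ (s1 _ _ e.2).2 j k
  exact c.imp (· Γ a d) fun c => ⟨_, fun Δ e f => c Δ e fun j k => (f j k).trans (d j k)⟩

theorem force {ι : Type} [Countable ι] {U : ι → (ℕ → Bool) → Prop} {E : ℕ → List (ℕ × Bool) → ℕ} {Y : ℕ → Bool}
    (p0 : ∃ Δ, P Δ) (pc : ∀ Γ, (∀ k, ∃ Δ, P Δ ∧ ∀ i < k, Δ i = Γ i) → P Γ)
    (vm : ∀ m n, m ≤ n → ∀ i, V m i → V n i) (vc : ∀ i, ∃ n, V n i)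
    (op : ∀ i Δ, P Δ → U i Δ → ∃ n, ∀ Γ, P Γ → (∀ j, V n j → Γ j = Δ j) → U i Γ)
    (co : ∀ Δ n, P Δ → ∃ f : ℕ → Bool, CI O f ∧ ∀ i, V n i → f i = Δ i)
    (e1 : CI O fun z : ℕ × List (ℕ × Bool) => E z.1 z.2) (e2 : ∀ n π, V n (E n π))
    (e3 : ∀ Δ n π, P Δ → (Δ (E n π) ↔ ∃ Γ, P Γ ∧ (∀ i, V n i → Γ i = Δ i) ∧ ∀ z ∈ π, Γ z.1 = z.2)) (hY : Sm Y) :
    ∃ Γ, P Γ ∧ Sm (jn Γ Y) ∧ ∀ i, U i Γ ∨ ∃ n, ∀ Δ, P Δ → (∀ j, V n j → Δ j = Γ j) → ¬ U i Δ := by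
  have vk : ∀ k, ∃ n, ∀ i < k, V n i := fun k => by
    choose g h using vc
    exact ⟨∑ i ∈ Finset.range k, g i, fun i a => vm _ _ (Finset.single_le_sum (fun _ _ => Nat.zero_le _)
      (Finset.mem_range.2 a)) i (h i)⟩
  have jc : ∀ {Γ Δ : ℕ → Bool} {n}, (∀ i < n, Γ i = Δ i) → pre (jn Γ Y) n = pre (jn Δ Y) n := fun h =>
    ML.pre_congr fun i a => by simp [jn, h (i / 2) (by omega)]
  obtain ⟨C, hC⟩ : ∃ C : ℕ → (ℕ → Bool) → ℕ → ℕ → Prop, ∀ e Γ x b, C e Γ x b ↔ ∃ n, Cv e (pre (jn Γ Y) n) x b :=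
    ⟨_, fun _ _ _ _ => .rfl⟩
  have oc : ∀ e Δ x b, C e Δ x b → ∃ n, ∀ Γ, (∀ j, V n j → Γ j = Δ j) → C e Γ x b := fun e Δ x b h => by
    obtain ⟨m, h⟩ := (hC ..).1 h
    obtain ⟨n, a⟩ := vk m
    exact ⟨n, fun Γ c => (hC ..).2 ⟨m, jc (fun i d => c i (a i d)) ▸ h⟩⟩
  obtain ⟨Γ, a, b⟩ := baire (P := P) (V := V) (ι := ι ⊕ (ℕ × Bool) ⊕ (ℕ × ℕ × Code)) (U := Sum.elim U (Sum.elim
    (fun z Γ => bif z.2 then ∃ x n, ∀ Δ, P Δ → (∀ j, V n j → Δ j = Γ j) → ∀ b, ¬ C z.1 Δ x b else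
      ∃ x, ∃ b ∈ (ofNat Code x).eval x, C z.1 Γ x b)
    fun z Γ => ∃ x ≥ z.2.1, ∃ c ∈ z.2.2.eval x, ∃ b < c, C z.1 Γ x b)) p0 pc vm (by
      rintro (i | ⟨e, _ | _⟩ | ⟨e, N, d⟩) Δ a
      · exact op i Δ a
      · exact fun ⟨x, b, c, d⟩ => (oc _ _ _ _ d).imp fun n f Γ _ g => ⟨x, b, c, f Γ g⟩
      · exact fun ⟨x, n, c⟩ => ⟨n, fun Γ _ f => ⟨x, n, fun Θ g h => c Θ g fun j k => (h j k).trans (f j k)⟩⟩
      · exact fun ⟨x, c, y, d, b, f, g⟩ => (oc _ _ _ _ g).imp fun n h Γ _ g => ⟨x, c, y, d, b, f, h Γ g⟩)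
  refine ⟨Γ, a, sm_of fun e => ?_, fun i => b (.inl i)⟩
  rcases b (.inr (.inl (e, true))) with ⟨x, n, c⟩ | ⟨n, c⟩
  · exact .inl ⟨x, fun m y d => c Γ a (fun _ _ => rfl) y ((hC ..).2 ⟨m, d⟩)⟩
  simp only [Sum.elim_inr, Sum.elim_inl, cond_true] at c
  push Not at c
  obtain ⟨pt, t1, t2⟩ : ∃ pt : List Bool → List (ℕ × Bool), CI Y pt ∧
      ∀ σ, pt σ = (List.range σ.length).map fun i => (i, σ.getD i false) := ⟨_, by fun_prop, fun _ => rfl⟩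
  obtain ⟨W, w1, w2⟩ : ∃ W : ℕ × List Bool × ℕ → Prop, RI Y W ∧
      ∀ z, W z ↔ Cv e (pre (jn (z.2.1.getD · false) Y) z.2.1.length) z.1 z.2.2 := by
    have y := ci_self Y
    exact ⟨_, i_comp (f := fun z : ℕ × List Bool × ℕ => (e, pre (jn (z.2.1.getD · false) Y) z.2.1.length, z.1, z.2.2))
      (cv_ri Y) (by unfold jn; fun_prop), fun _ => .rfl⟩
  have f : ∀ Δ m x y, P Δ → ((∃ Θ, P Θ ∧ (∀ j, V m j → Θ j = Δ j) ∧ C e Θ x y) ↔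
      ∃ σ, Δ (E m (pt σ)) ∧ W (x, σ, y)) := fun Δ m x y d => by
    simp only [e3 _ _ _ d, t2, w2, hC, forall_mem_map, List.mem_range]
    exact ⟨fun ⟨Θ, f, g, k, h⟩ => ⟨pre Θ k, ⟨Θ, f, g, fun i l => by simp [pre, pre_len Θ k ▸ l]⟩, by
      rwa [pre_len, jc (Δ := Θ) fun i l => by simp [pre, l]]⟩, fun ⟨σ, ⟨Θ, f, g, h⟩, k⟩ => ⟨Θ, f, g, _, jc h ▸ k⟩⟩
  replace e1 := e1.trans (ci_O (Y := Y))
  refine .inr ⟨?_, ?_⟩
  · rcases b (.inr (.inl (e, false))) with ⟨x, y, d, g⟩ | ⟨m, d⟩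
    · exact ⟨x, y, d, (hC ..).1 g⟩
    obtain ⟨g, g1, g2⟩ := co Γ m a
    replace g1 := g1.trans (ci_O (Y := Y))
    obtain ⟨r, r1, r2⟩ := RI.choice (Y := Y) (R := fun x (z : List Bool × ℕ) => g (E m (pt z.1)) = true ∧ W (x, z))
      (by fun_prop) fun x => by
        obtain ⟨Δ, k, l, y, o⟩ := c Γ a (fun _ _ => rfl) x m
        obtain ⟨σ, o⟩ := (f Γ m x y a).1 ⟨Δ, k, l, o⟩
        exact ⟨(σ, y), g2 _ (e2 ..) ▸ o⟩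
    obtain ⟨⟨x, k⟩, -⟩ := hY (fun x => (r x).2) (by fun_prop)
    obtain ⟨Δ, l, o, p⟩ := (f Γ m x _ a).2 ⟨_, g2 _ (e2 ..) ▸ r2 x⟩
    exact (d Δ l o ⟨x, _, k, p⟩).elim
  obtain ⟨g, g1, g2⟩ := co Γ n a
  replace g1 := g1.trans (ci_O (Y := Y))
  obtain ⟨r, r1, r2⟩ := RI.choice (Y := Y) (R := fun x (l : List (List Bool × ℕ)) =>
    (∀ i < l.length, W (x, l.getD i ([], 0))) ∧
      g (E n ((List.range l.length).map fun i => (E x (pt (l.getD i ([], 0)).1), false))) = false) (by fun_prop) fun x => by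
    by_contra h
    have : ∀ s, ∃ Δ, P Δ ∧ (∀ i, V n i → Δ i = Γ i) ∧ ∀ z : List Bool × ℕ, encode z < s → W (x, z) →
        Δ (E x (pt z.1)) = false := fun s => by
      obtain ⟨l, k⟩ : ∃ l : List (List Bool × ℕ), ∀ z, z ∈ l ↔ encode z < s ∧ W (x, z) :=
        ⟨(((finite_lt_nat s).preimage encode_injective.injOn).inter_of_left {z | W (x, z)}).toFinset.toList, by simp⟩
      refine ((e3 _ n _ a).1 ((g2 _ (e2 ..)).symm.trans (eq_true_of_ne_false fun o => h ⟨l, fun i o => ((k _).1 (by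
        simp [o])).2, o⟩))).imp fun Δ o => ⟨o.1, o.2.1, fun z p q => ?_⟩
      obtain ⟨i, u, rfl⟩ := getElem_of_mem ((k z).2 ⟨p, q⟩)
      simpa [u] using o.2.2 _ (mem_map.2 ⟨i, List.mem_range.2 u, rfl⟩)
    choose s s1 s2 s3 using this
    obtain ⟨Δ, k, l⟩ := ulim pc s1
    obtain ⟨Θ, o, p, y, q⟩ := c Δ k (fun j o => (l j).exists.elim fun m p => p ▸ s2 m j o) x x
    obtain ⟨σ, o, p⟩ := (f Δ x x y k).1 ⟨Θ, o, p, q⟩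
    obtain ⟨m, q, u⟩ := ((l (E x (pt σ))).and (Nat.hyperfilter_le_atTop (eventually_gt_atTop (encode (σ, y))))).exists
    simp [← q, s3 m _ u p] at o
  obtain ⟨-, d, d1, d2⟩ := hY (fun x => ∑ i ∈ Finset.range (r x).length, ((r x).getD i ([], 0)).2) (by fun_prop)
  obtain ⟨D, d3⟩ := exists_code.1 (Partrec.nat_iff.1 (ci_comput d1).partrec)
  refine ⟨d, d1, frequently_atTop.2 fun N => ?_⟩
  rcases b (.inr (.inr (e, N, D))) with ⟨x, h, y, k, z, l, o⟩ | ⟨m, h⟩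
  · obtain ⟨m, o⟩ := (hC ..).1 o
    exact ⟨x, h, m, z, by simpa [show y = d x by simpa [d3] using k] using l, o⟩
  obtain ⟨x, k, l⟩ := frequently_atTop.1 d2 (N + m)
  obtain ⟨i, o, p⟩ : ∃ i < (r x).length, Γ (E x (pt ((r x).getD i ([], 0)).1)) := by
    by_contra q
    have := (r2 x).2
    rw [g2 _ (e2 ..), (e3 _ _ _ a).2 ⟨Γ, a, fun _ _ => rfl, by simpa using q⟩] at this
    simp at this
  obtain ⟨Δ, q, u, v⟩ := (f Γ x x _ a).2 ⟨_, p, (r2 x).1 i o⟩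
  exact (h Δ q (fun j y => u j (vm _ _ (by omega) j y)) ⟨x, by simp only; omega, d x, by simp [d3], _,
    (Finset.single_le_sum (f := fun i => ((r x).getD i ([], 0)).2) (fun _ _ => Nat.zero_le _)
      (Finset.mem_range.2 o)).trans_lt l, v⟩).elim

end Pool.Agent.H.MP_5f0f34_lc
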