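import Pool.Agent.H.MP_5f0f34_lc.B
import Pool.Agent.H.MP_5f0f34_lc.C

set_option autoImplicit false

/-! Saturated models by forcing. -/

namespace Pool.Agent.H.MP_5f0f34_lc

open Pool.Agent.Lib.helper21.PR Pool.Agent.H.MP_fa5791_lc Filter Set Encodable Denumerable Function
open Nat.Partrec Nat.Partrec.Code

attribute [local irreducible] Primrec Computable

variable {M : Type} {A : Str M} {L : Lang} {v : ℕ → M} {V : Set ℕ} {c k φ : ℕ} {b : ℕ → ℕ} {l : List ℕ}

/-- formulas with free variables among the first `n` -/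
def Fm (L : Lang) (n φ : ℕ) : Prop := Ok L φ (Iio n)

/-- the theory of a structure -/
def Th (L : Lang) (A : Str M) (φ : ℕ) : Prop := Fm L 0 φ ∧ ∀ v, Sat A φ v

/-- complete types over the tuple `a`, named by the first variables, in the next `n` variables -/
def IsType (L : Lang) (A : Str M) (a : List M) (n : ℕ) (p : ℕ → Prop) : Prop :=
  (∀ φ, p φ → Fm L (a.length + n) φ) ∧ (∀ φ, Fm L (a.length + n) φ → p φ ∨ p (neg φ)) ∧
    ∀ F : Finset ℕ, (∀ φ ∈ F, p φ) → ∃ v : ℕ → M, (∀ i, ∀ h : i < a.length, v i = a[i]) ∧ ∀ φ ∈ F, Sat A φ v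

def Saturated (L : Lang) (A : Str M) : Prop := ∀ a n p, IsType L A a n p →
  ∃ v : ℕ → M, (∀ i, ∀ h : i < a.length, v i = a[i]) ∧ ∀ φ, p φ → Sat A φ v

/-- the elementary diagram, as a set of codes of pairs (formula, tuple) -/
noncomputable def Diag (L : Lang) (A : Str ℕ) (c : ℕ) : Bool := open Classical in
  decide (Fm L (ofNat (List ℕ) c.unpair.2).length c.unpair.1 ∧
    Sat A c.unpair.1 fun i => (ofNat (List ℕ) c.unpair.2).getD i 0)

def top : ℕ := neg (ex 0 (neg (eq (var 0) (var 0))))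
def exs (c k φ : ℕ) : ℕ := Nat.rec φ (fun j ψ => ex (c + j) ψ) k
def cj (b : ℕ → ℕ) (k : ℕ) : ℕ := Nat.rec top (fun j ψ => conj (b j) ψ) k
def mvs (c : ℕ) (b : ℕ → ℕ) (k φ : ℕ) : ℕ := exs c k (conj (cj (fun j => eq (var (c + j)) (var (b j))) k) φ)
def tr (φ : ℕ) (l : List ℕ) : ℕ :=
  mvs (l.length + encode l) (l.getD · 0) l.length (mvs 0 (l.length + encode l + ·) l.length φ)

@[simp] theorem sat_top : Sat A top v := by simp [top]
@[simp] theorem ok_top : Ok L top V := by simp [top]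

theorem sat_exs : Sat A (exs c k φ) v ↔ ∃ u, (∀ i, ¬ (c ≤ i ∧ i < c + k) → u i = v i) ∧ Sat A φ u := by
  induction k generalizing v with
  | zero => exact ⟨fun h => ⟨v, by simp, h⟩, fun ⟨u, a, h⟩ => (funext fun i => a i (by omega) : u = v) ▸ h⟩
  | succ k ih =>
    refine sat_ex.trans ((exists_congr fun _ => ih).trans ⟨fun ⟨a, u, h, e⟩ => ⟨u, by grind, e⟩,
      fun ⟨u, h, e⟩ => ⟨u (c + k), u, by grind, e⟩⟩)

theorem ok_exs : Ok L (exs c k φ) V ↔ Ok L φ (V ∪ Ico c (c + k)) := by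
  induction k generalizing V with
  | zero => simp [exs]
  | succ k ih => exact ok_ex.trans (ih.trans (iff_of_eq (congrArg _ (by grind))))

@[simp] theorem sat_cj : Sat A (cj b k) v ↔ ∀ j < k, Sat A (b j) v := by
  induction k with
  | zero => simp [cj]
  | succ k ih => exact sat_conj.trans ((and_congr_right' ih).trans (by grind))

@[simp] theorem ok_cj : Ok L (cj b k) V ↔ ∀ j < k, Ok L (b j) V := by
  induction k with
  | zero => simp [cj]
  | succ k ih => exact ok_conj.trans ((and_congr_right' ih).trans (by grind))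

theorem sat_mvs (h : ∀ j < k, ¬ (c ≤ b j ∧ b j < c + k)) :
    Sat A (mvs c b k φ) v ↔ Sat A φ fun i => if c ≤ i ∧ i < c + k then v (b (i - c)) else v i := by
  simp only [mvs, sat_exs, sat_conj, sat_cj, sat_eq, tm_var]
  refine ⟨fun ⟨u, a, d, e⟩ => cast (congrArg _ (funext fun i => ?_)) e, fun e => ⟨_, by grind, by grind, e⟩⟩
  have := d (i - c)
  grind

theorem getD_le (i : ℕ) (h : i < l.length) : l.getD i 0 < encode l := mem_lt (by simp [h])

theorem sat_tr (h : Fm L l.length φ) : Sat A (tr φ l) v ↔ Sat A φ (v ∘ (l.getD · 0)) := by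
  have := getD_le (l := l)
  rw [tr, sat_mvs (by grind), sat_mvs (by grind)]
  exact h.congr fun i a => by simp_all

theorem ok_tr (h : Fm L l.length φ) (e : ∀ i < l.length, l.getD i 0 ∈ V) : Ok L (tr φ l) V := by
  simp only [tr, mvs, ok_exs, ok_conj, ok_cj, ok_eq, ok_var]
  exact ⟨by grind, by grind, h.mono (by grind)⟩

theorem fm_iff {n : ℕ} : Fm L n φ ↔ Th L A (exs 0 n (neg (conj φ (neg φ)))) := by
  simp only [Th, Fm, ok_exs, sat_exs]
  exact ⟨fun h => ⟨by simpa using h.mono (by grind), fun v => ⟨v, by simp⟩⟩, fun h => Ok.mono (by simpa using h.1) (by grind)⟩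

theorem ext_inj [Infinite M] (u : ℕ → M) : ∀ N, (∀ i < N, ∀ j < i, u j ≠ u i) → ∃ v : ℕ ↪ M, ∀ i < N, v i = u i
  | 0, _ => ⟨Infinite.natEmbedding M, by simp⟩
  | N + 1, h => by
    classical
    obtain ⟨v, a⟩ := ext_inj u N (by grind)
    refine ⟨v.setValue N (u N), fun i d => ?_⟩
    obtain rfl | d := (Nat.lt_succ_iff_lt_or_eq.1 d).symm
    · simp
    · rw [Embedding.setValue_eq_of_ne d.ne (by grind), a i d]

theorem place (v : ℕ ↪ M) (u : ℕ → M) (m : ℕ) : ∀ k, ∃ (v' : ℕ ↪ M) (w : ℕ → ℕ), (∀ i < m, v' i = v i) ∧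
    ∀ i < k, w i < m + k ∧ v' (w i) = u i
  | 0 => ⟨v, id, by simp⟩
  | k + 1 => by
    classical
    obtain ⟨v', w, a, d⟩ := place v u m k
    by_cases e : ∃ j < m + k, v' j = u k
    · exact e.elim fun j e => ⟨v', update w k j, a, by grind⟩
    have : ∀ i < m + k, v'.setValue (m + k) (u k) i = v' i := fun i f =>
      Embedding.setValue_eq_of_ne f.ne (by grind)
    have := Embedding.setValue_eq v' (m + k) (u k)
    exact ⟨v'.setValue (m + k) (u k), update w k (m + k), by grind, by grind⟩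

theorem one [Infinite M] {Y : ℕ → Bool} (hT : ComputablePred (Th L A))
    (hp : ∀ n p, IsType L A [] n p → ComputablePred p) (hY : Sm Y) : ∃ Z, Sm Z ∧ CI Z Y ∧ ∃ B : Str ℕ,
      (∀ φ, Th L B φ ↔ Th L A φ) ∧ Saturated L B ∧ CI Z (Diag L B) := by
  classical
  have cp : ∀ {p : ℕ → Prop}, ComputablePred p → CI O fun a => cd (p a) := fun ⟨_, h⟩ =>
    (Computable.ci h).of_eq fun a => by rw [Bool.eq_iff_iff]; simp
  obtain ⟨F, f1, f2⟩ : ∃ F : ℕ → ℕ → Bool, CI O (fun z : ℕ × ℕ => F z.1 z.2) ∧ ∀ n φ, F n φ = cd (Fm L n φ) :=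
    ⟨_, (ci_comp (g := fun z : ℕ × ℕ => exs 0 z.1 (neg (conj z.2 (neg z.2)))) (cp hT) (by
      unfold exs neg conj ex; fun_prop)).of_eq fun _ => congrArg cd (propext fm_iff.symm), fun _ _ => rfl⟩
  have u1 : ∀ {n φ}, Fm L n φ → Ok L φ univ := fun h => h.mono (by simp)
  have u2 : ∀ {n φ}, Ok L φ univ → φ < n → Fm L n φ := fun h a => h.mono (by grind)
  obtain ⟨G, hG⟩ : ∃ G : (ℕ → M) → ℕ → Bool, ∀ v φ, G v φ ↔ Ok L φ univ ∧ Sat A φ v :=
    ⟨fun v φ => cd _, fun _ _ => cd_true⟩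
  have gv : ∀ {n φ} {v u : ℕ → M}, (Ok L φ univ → Fm L n φ) → (∀ i < n, v i = u i) → G v φ = G u φ := fun a d => by
    rw [Bool.eq_iff_iff, hG, hG]
    exact and_congr_right fun e => (a e).congr d
  obtain ⟨P, hP⟩ : ∃ P : (ℕ → Bool) → Prop, ∀ Δ, P Δ ↔ ∀ k, ∃ v : ℕ ↪ M, ∀ φ < k, G v φ = Δ φ :=
    ⟨_, fun _ => .rfl⟩
  have pc : ∀ Γ, (∀ k, ∃ Δ, P Δ ∧ ∀ i < k, Δ i = Γ i) → P Γ := fun Γ h => (hP _).2 fun k =>
    let ⟨_, a, d⟩ := h k; ((hP _).1 a k).imp fun _ e i f => (e i f).trans (d i f)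
  have pg : ∀ v : ℕ ↪ M, P (G v) := fun v => (hP _).2 fun _ => ⟨v, by simp⟩
  obtain ⟨t, t1, t2⟩ : ∃ t : ℕ × Bool → ℕ, CI O t ∧ ∀ z, t z = if F (z.1 + 1) z.1 = true then
    (if z.2 = true then z.1 else neg z.1) else if z.2 = true then neg top else top :=
      ⟨_, by unfold neg; fun_prop, fun _ => rfl⟩
  have t3 : ∀ z n, z.1 < n → Fm L n (t z) ∧ ∀ v, Sat A (t z) v ↔ G v z.1 = z.2 := fun ⟨φ, a⟩ n d => by
    rw [t2, f2]
    by_cases e : Fm L (φ + 1) φ
    · have : Ok L φ (Iio n) := u2 (u1 e) d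
      cases a <;> simp [Fm, ← Bool.not_eq_true, hG, this, u1 e, show Ok L φ (Iio (φ + 1)) from e]
    · have : ¬ Ok L φ univ := fun f => e (u2 f (by simp))
      cases a <;> simp [Fm, ← Bool.not_eq_true, hG, this, show ¬ Ok L φ (Iio (φ + 1)) from e]
  obtain ⟨E, e1, e2⟩ : ∃ E : ℕ → List (ℕ × Bool) → ℕ, CI O (fun z : ℕ × List (ℕ × Bool) => E z.1 z.2) ∧ ∀ n π,
    E n π = exs n (encode π) (conj (cj (fun i => cj (fun j => neg (eq (var j) (var i))) i) (n + encode π))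
      (cj (fun j => t (π.getD j (0, false))) π.length)) :=
    ⟨_, by unfold exs cj neg conj ex eq var; fun_prop, fun _ _ => rfl⟩
  have e0 : ∀ (π : List (ℕ × Bool)) n, ∀ z ∈ π, z.1 < n + encode π := fun π n z h => by
    have := mem_lt (k := encode (π.map encode)) (x := encode z) (by simpa using h)
    have : encode (π.map encode) = encode π := by clear * -; induction π <;> simp_all
    have : z.1 ≤ encode z := Nat.left_le_pair _ _
    omega
  have e3 : ∀ n π, Fm L n (E n π) := fun n π => by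
    simp only [e2, Fm, ok_exs, ok_conj, ok_cj, ok_neg, ok_eq, ok_var]
    exact ⟨by grind, fun j h => (t3 _ _ (e0 π n _ (by simp [h]))).1.mono (by grind)⟩
  have e4 : ∀ n π v, Sat A (E n π) v ↔ ∃ u, (∀ i, ¬ (n ≤ i ∧ i < n + encode π) → u i = v i) ∧
      (∀ i < n + encode π, ∀ j < i, u j ≠ u i) ∧ ∀ z ∈ π, G u z.1 = z.2 := fun n π v => by
    simp only [e2, sat_exs, sat_conj, sat_cj, sat_neg, sat_eq, tm_var, List.forall_mem_iff_forall_getElem]
    exact exists_congr fun u => and_congr_right' (and_congr_right' (forall₂_congr fun j h => by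
      rw [List.getD_eq_getElem _ _ h, (t3 _ _ (e0 π 0 _ (by simp))).2]))
  obtain ⟨Γ, g1, g2, g3⟩ := force (P := P) (V := fun n φ => Ok L φ univ → Fm L n φ) (ι := Code × List ℕ × List ℕ)
    (U := fun z Γ => ∃ w : List ℕ, w.length = z.2.1.length ∧ (∀ i ∈ z.2.2, w.getD i 0 = z.2.1.getD i 0) ∧
      ∀ φ, (z.1.eval φ).Dom → Fm L w.length φ → Γ (tr φ w)) (E := E) ⟨_, pg (Infinite.natEmbedding M)⟩ pc
    (fun m n h φ a d => (a d).mono (by grind)) (fun φ => ⟨φ + 1, (u2 · (by simp))⟩)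
    (fun z Δ _ ⟨w, a, d, e⟩ => ⟨encode w, fun Γ _ f => ⟨w, a, d, fun φ g h =>
      (f _ fun _ => ok_tr h getD_le).trans (e φ g h)⟩⟩)
    (fun Δ n h => by
      refine ⟨_, cp (hp n (fun φ => Fm L n φ ∧ Δ φ) ⟨by simp +contextual, fun φ a => ?_, fun S a => ?_⟩), fun φ a => ?_⟩
      · obtain ⟨v, d⟩ := (hP _).1 h (neg φ + 1)
        replace a : Fm L n φ := by simpa using a
        simp [← d φ (by simp [neg]; omega), ← d (neg φ) (by simp), hG, a, u1 a, show Fm L n (neg φ) from ok_neg.2 a, em]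
      · obtain ⟨v, d⟩ := (hP _).1 h (S.sup id + 1)
        exact ⟨v, by simp, fun φ e => ((hG _ _).1 ((d φ (Nat.lt_succ_of_le (Finset.le_sup (f := id) e))).trans
          (a φ e).2)).2⟩
      · obtain ⟨v, d⟩ := (hP _).1 h (φ + 1)
        rw [Bool.eq_iff_iff, cd_true]
        exact and_iff_right_of_imp fun e => a ((hG v φ).1 ((d φ (by simp)).trans e)).1)
    e1 (fun n π _ => e3 n π) (fun Δ n π h => ⟨fun a => by
      have : ∀ s, ∃ v : ℕ ↪ M, (∀ φ < s, (Ok L φ univ → Fm L n φ) → G v φ = Δ φ) ∧ ∀ z ∈ π, G v z.1 = z.2 := fun s => by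
        obtain ⟨v, d⟩ := (hP _).1 h (s + E n π + 1)
        obtain ⟨u, f, g, k⟩ := (e4 ..).1 ((hG _ _).1 ((d _ (by omega)).trans a)).2
        obtain ⟨y, o⟩ := ext_inj u _ g
        exact ⟨y, fun φ p q => (gv q fun i r => (o i (by omega)).trans (f i (by omega))).trans (d φ (by omega)),
          fun z p => (gv (u2 · (e0 π n z p)) o).trans (k z p)⟩
      choose v v1 v2 using this
      obtain ⟨Γ, d, e⟩ := ulim pc fun s => pg (v s)
      exact ⟨Γ, d, fun φ f => ((e φ).and (Nat.hyperfilter_le_atTop (eventually_gt_atTop φ))).exists.elim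
        fun s g => g.1 ▸ v1 s φ g.2 f, fun z f => (e z.1).exists.elim fun s g => g ▸ v2 s z f⟩,
      fun ⟨Γ, a, d, e⟩ => by
        obtain ⟨v, f⟩ := (hP _).1 a (E n π + 1 + encode π)
        exact (d _ fun _ => e3 n π).symm.trans ((f _ (by omega)).symm.trans ((hG _ _).2 ⟨u1 (e3 n π), (e4 ..).2
          ⟨v, by simp, fun i _ j g => v.injective.ne g.ne, fun z g => (f _ (e0 π _ z g)).trans (e z g)⟩⟩))⟩) hY
  choose v hv using (hP _).1 g1
  have gt : ∀ φ (w : List ℕ), Fm L w.length φ → ∀ᶠ s in hyperfilter ℕ, Γ (tr φ w) ↔ Sat A φ (v s ∘ (w.getD · 0)) :=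
    fun φ w h => Nat.hyperfilter_le_atTop ((eventually_gt_atTop _).mono fun s a => by
      rw [← hv s _ a, hG, sat_tr h, and_iff_right (ok_tr h (by simp))])
  have re : ∀ (p : ℕ → Prop) k (w : ℕ → ℕ) (I : List ℕ), ComputablePred p → (∀ φ, p φ → Fm L k φ) →
      (∀ S : Finset ℕ, (∀ φ ∈ S, p φ) → ∀ᶠ s in hyperfilter ℕ, ∃ u, (∀ i ∈ I, u i = v s (w i)) ∧ ∀ φ ∈ S, Sat A φ u) →
      ∃ y : ℕ → ℕ, (∀ i ∈ I, i < k → y i = w i) ∧ ∀ φ, p φ → ∀ᶠ s in hyperfilter ℕ, Sat A φ (v s ∘ y) := by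
    intro p k w I a d e
    obtain ⟨c, hc⟩ := re_code a.to_re
    rcases g3 (c, (List.range k).map w, I) with ⟨y, f, g, h⟩ | ⟨n, f⟩
    · replace f : y.length = k := by simpa using f
      exact ⟨(y.getD · 0), fun i m o => by simpa [o] using g i m, fun φ m => (gt φ y (f ▸ d φ m)).mono fun s o =>
        o.1 (h φ ((hc φ).1 m) (f ▸ d φ m))⟩
    obtain ⟨m, m1, m2⟩ : ∃ m, n ≤ m ∧ ∀ i < k, w i < m := ⟨n + (Finset.range k).sup w + 1, by omega, fun i g => by
      have := Finset.le_sup (f := w) (Finset.mem_range.2 g); omega⟩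
    have : ∀ s, ∃ (x : ℕ ↪ M) (y : ℕ → ℕ), (∀ φ < s, (Ok L φ univ → Fm L n φ) → G x φ = Γ φ) ∧
        (∀ i < k, y i ∈ Iio (m + k) ∧ (i ∈ I → y i = w i)) ∧ ∀ φ < s, p φ → Sat A φ (x ∘ y) := fun s => by
      obtain ⟨r, ⟨u, g, h⟩, o⟩ := ((e ((Finset.range s).filter p) (by simp)).and
        (Nat.hyperfilter_le_atTop (eventually_ge_atTop s))).exists
      obtain ⟨x, y, q, z⟩ := place (v r) u m k
      exact ⟨x, y, fun φ i j => (gv j fun i j => q i (by omega)).trans (hv r φ (i.trans_le o)), fun i j =>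
        ⟨(z i j).1, fun l => x.injective ((z i j).2.trans ((g i l).trans (q _ (m2 i j)).symm))⟩,
          fun φ i j => ((d φ j).congr fun i l => (z i l).2).2 (h φ (by simp [i, j]))⟩
    choose x y h1 h2 h3 using this
    have : ∀ i, ∃ j, i < k → ∀ᶠ s in hyperfilter ℕ, y s i = j := fun i => by
      by_cases g : i < k
      · exact ((Ultrafilter.eventually_exists_mem_iff (P := fun j s => y s i = j) (finite_Iio (m + k))).1
          (.of_forall fun s => ⟨_, (h2 s i g).1, rfl⟩)).imp fun _ h _ => h.2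
      · exact ⟨0, (absurd · g)⟩
    choose z hz using this
    obtain ⟨Δ, o, q⟩ := ulim pc fun s => pg (x s)
    refine (f Δ o (fun φ g => ((q φ).and (Nat.hyperfilter_le_atTop (eventually_gt_atTop φ))).exists.elim
      fun s r => r.1 ▸ h1 s φ r.2 g) ⟨(List.range k).map z, by simp, fun i g => ?_, fun φ g h => ?_⟩).elim
    · by_cases r : i < k
      · exact (hz i r).exists.elim fun s u => by simp [r, ← u, (h2 s i r).2 g]
      · simp [r]
    obtain ⟨s, ⟨r, u⟩, o⟩ := (((q (tr φ ((List.range k).map z))).and (Nat.hyperfilter_le_atTop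
      (eventually_gt_atTop φ))).and ((eventually_all_finite (finite_lt_nat k)).2 hz)).exists
    exact r ▸ (hG _ _).2 ⟨ok_tr h (by simp), (sat_tr h).2 (((d φ ((hc φ).2 g)).congr fun i j => by
      simp [show i < k from j, o i j]).1 (h3 s φ u ((hc φ).2 g)))⟩
  obtain ⟨B, hB⟩ := truth (L := L) (A := A) (U := hyperfilter ℕ) (fun s => (v s).injective) fun i φ w a d => by
    obtain ⟨y, e, f⟩ := re (· = φ) (φ + 1) w ((List.range (φ + 1)).filter (· ≠ i))
      ⟨inferInstance, (Primrec.eq.comp .id (.const φ)).decide.to_comp⟩ (fun _ e => e.symm ▸ u2 a φ.lt_succ_self)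
      fun S e => d.mono fun s f => (sat_ex.1 f).elim fun x f => ⟨_, by grind, fun _ g => e _ g ▸ f⟩
    exact ⟨y i, (f φ rfl).mono fun s g => ((u2 a φ.lt_succ_self).congr (by grind)).1 g⟩
  refine ⟨_, g2, jn_r _ _, B, fun φ => and_congr_right fun a => ⟨fun d u => ?_, fun d w => (hB φ w (u1 a)).2
    (.of_forall fun _ => d _)⟩, fun a n p ⟨d, e, f⟩ => ?_, ?_⟩
  · exact ((hB φ id (u1 a)).1 (d _)).exists.elim fun s e => (a.congr (by simp)).1 e
  · have g : ∀ S : Finset ℕ, (∀ φ ∈ S, p φ) → ∀ᶠ s in hyperfilter ℕ, ∃ u, (∀ i ∈ List.range a.length,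
        u i = v s (a.getD i 0)) ∧ ∀ φ ∈ S, Sat A φ u := fun S g => let ⟨w, h, k⟩ := f S g
      ((eventually_all_finset S).2 fun φ m => (hB φ w (u1 (d φ (g φ m)))).1 (k φ m)).mono fun s m =>
        ⟨_, by grind, m⟩
    obtain ⟨y, h, k⟩ := re p (a.length + n) (a.getD · 0) _ (hp (a.length + n) p ⟨by simpa, by simpa, fun S h =>
      let ⟨_, u, k⟩ := (g S h).exists; ⟨u, by simp, k.2⟩⟩) d g
    exact ⟨y, by grind, fun φ m => (hB φ y (u1 (d φ m))).2 (k φ m)⟩
  replace f1 := f1.trans (ci_O (Y := jn Γ Y))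
  have := jn_l Γ Y
  refine CI.of_eq (f := fun c => cd (F (ofNat (List ℕ) c.unpair.2).length c.unpair.1 = true ∧
    Γ (tr c.unpair.1 (ofNat (List ℕ) c.unpair.2)) = true)) (by unfold tr mvs exs cj conj ex eq var; fun_prop) fun c => ?_
  rw [Bool.eq_iff_iff, Diag, decide_eq_true_iff, cd_true, f2, cd_true]
  exact and_congr_right fun a => eventually_const.symm.trans
    ((eventually_congr (gt _ _ a)).trans (hB _ _ (u1 a)).symm)

end Pool.Agent.H.MP_5f0f34_lc
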